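import Pool.Agent.Q267.Seven.Sums
import Pool.Agent.Q267.Seven.Sym

/-!
# MP_07dc7c_nt

`∑_{k<p} (-1)^k (42 k + 37) a(k) ≡ p (21 (p/7) + 16) (mod p^2)` for every prime `p ≠ 7`, where
`a(n) = ∑_k (-16)^k C(n,k)^2 C(n-k,k)^2`.
-/

namespace Pool.Agent.Results.MP_07dc7c_nt.WeightedSum

open Finset

/-- `a(n) = ∑_{0 ≤ k ≤ n} (-16)^k C(n,k)^2 C(n-k,k)^2`. -/
def a (n : ℕ) : ℤ :=
  ∑ k ∈ range (n + 1), (-16 : ℤ) ^ k * (n.choose k : ℤ) ^ 2 * ((n - k).choose k : ℤ) ^ 2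

/-- `S(p) = ∑_{k=0}^{p-1} (-1)^k (42 k + 37) a(k)`. -/
def S (p : ℕ) : ℤ := ∑ k ∈ range p, (-1 : ℤ) ^ k * ((42 * (k : ℤ) + 37) * a k)

/-- **MP_07dc7c_nt, Q1.** For every prime `p ≠ 7`,
`S(p) ≡ p (21 (p/7) + 16) (mod p^2)`; here `(p/7)` is the Jacobi (Legendre) symbol of `p`
modulo `7`. -/
theorem result (p : ℕ) (hp : p.Prime) (h7 : p ≠ 7) :
    S p ≡ (p : ℤ) * (21 * jacobiSym (p : ℤ) 7 + 16) [ZMOD (p : ℤ) ^ 2] := by
  have hpf : Fact p.Prime := ⟨hp⟩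
  rcases hp.eq_two_or_odd' with h2 | hodd
  · subst h2
    decide +kernel
  obtain ⟨m, hm⟩ := hodd
  have key := Pool.Agent.Q267.Seven.sum_a'_mod p m hp hm
  have h21 := Pool.Agent.Q267.Seven.sum_21_mod p m hp hm
  have hS : S p = ∑ n ∈ range p, (-1 : ℤ) ^ n * ((42 * (n : ℤ) + 37)
      * Pool.Agent.Q267.Seven.a n) := rfl
  -- the sum modulo p
  have hmod : (p : ℤ) ∣ 21 * ((∑ k ∈ range (m + 1), 16 ^ k * (k.centralBinom : ℤ))
      - jacobiSym (p : ℤ) 7) := by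
    by_cases h3 : p = 3
    · subst h3
      exact Dvd.dvd.mul_right (by norm_num) _
    have h3' : (3 : ZMod p) ≠ 0 := by
      intro h
      have h' : ((3 : ℕ) : ZMod p) = 0 := by simpa using h
      rw [ZMod.natCast_eq_zero_iff] at h'
      exact h3 ((Nat.prime_dvd_prime_iff_eq hp (by norm_num)).1 h')
    apply Dvd.dvd.mul_left
    rw [← ZMod.intCast_zmod_eq_zero_iff_dvd]
    rw [Int.cast_sub, ← Pool.Agent.Q267.Seven.pow_neg_63 p m hm h3', sub_eq_zero, Int.cast_sum]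
    have e : ∀ k ∈ range (m + 1), (((16 : ℤ) ^ k * (k.centralBinom : ℤ) : ℤ) : ZMod p) =
        (-64) ^ k * 1 ^ (m - k) * ((m.choose k : ℕ) : ZMod p) := by
      intro k hk
      have hk' : k ≤ m := by simpa [Nat.lt_succ_iff] using hk
      push_cast
      rw [Pool.Agent.Q267.Cubic.central p m hm k hk', one_pow, mul_one, ← mul_assoc, ← mul_pow]
      norm_num
    rw [sum_congr rfl e, ← add_pow]
    norm_num
  obtain ⟨c, hc⟩ := hmod
  obtain ⟨d, hd⟩ := key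
  obtain ⟨e, he⟩ := h21
  rw [← hS] at hd
  apply Int.ModEq.symm
  rw [Int.modEq_iff_dvd]
  refine ⟨d + c + 2 * e, ?_⟩
  linear_combination hd + (p : ℤ) * hc + 2 * he

end Pool.Agent.Results.MP_07dc7c_nt.WeightedSum
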